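import Mathlib
import Pool.Agent.N836.SM.Stm

/-!
# Rigidity of discrete Gaussian measures from the closeness of the marginals (`S_G2`)
-/

set_option autoImplicit false

namespace Pool.Agent.N459.SM

open Pool.Agent.N836.SM Filter

/-- The product weight `∏ (1 + z_j²)⁻¹`. -/
noncomputable def ww {N : ℕ} (z : Fin N → ℤ) : ℝ := ∏ j, (1 + (z j : ℝ) ^ 2)⁻¹

/-- Its inverse. -/
noncomputable def EE {N : ℕ} (z : Fin N → ℤ) : ℝ := ∏ j, (1 + (z j : ℝ) ^ 2)

theorem one_le_EE {N : ℕ} (z : Fin N → ℤ) : 1 ≤ EE z := by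
  unfold EE
  apply Finset.one_le_prod
  intro i _
  nlinarith [sq_nonneg (z i : ℝ)]

theorem ww_eq {N : ℕ} (z : Fin N → ℤ) : ww z = (EE z)⁻¹ := by
  unfold ww EE
  rw [Finset.prod_inv_distrib]

theorem ww_pos {N : ℕ} (z : Fin N → ℤ) : 0 < ww z := by
  rw [ww_eq]
  have := one_le_EE z
  positivity

theorem summable_one : Summable (fun z : ℤ => (1 + (z : ℝ) ^ 2)⁻¹) := by
  have h : Summable (fun n : ℤ => 1 / (n : ℝ) ^ 2) :=
    Real.summable_one_div_int_pow.mpr (by norm_num)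
  refine Summable.of_norm_bounded_eventually h ?_
  have h0 : ∀ᶠ i : ℤ in cofinite, i ≠ 0 := by
    rw [Filter.eventually_cofinite]
    simp
  filter_upwards [h0] with i hi
  have hi2 : (0 : ℝ) < (i : ℝ) ^ 2 := by positivity
  rw [Real.norm_of_nonneg (by positivity), one_div]
  exact inv_anti₀ hi2 (by linarith)

theorem summable_ww (N : ℕ) : Summable (ww : (Fin N → ℤ) → ℝ) := by
  induction N with
  | zero => exact (hasSum_fintype _).summable
  | succ N ih =>
    rw [← (Fin.consEquiv (fun _ => ℤ)).summable_iff]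
    have := Summable.mul_of_nonneg summable_one ih (fun z => by positivity)
      (fun z => (ww_pos z).le)
    refine this.congr ?_
    intro x
    simp only [ww, Fin.consEquiv, Function.comp, Fin.prod_univ_succ, Equiv.coe_fn_mk,
      Fin.cons_zero, Fin.cons_succ]

theorem norm_le_EE {N : ℕ} (z : Fin N → ℤ) : ‖z‖ ≤ EE z := by
  have h1 := one_le_EE z
  rw [pi_norm_le_iff_of_nonneg (by linarith)]
  intro j
  have h2 : 1 + (z j : ℝ) ^ 2 ≤ EE z := by
    unfold EE
    have := Finset.prod_le_prod_of_subset_of_one_le (s := {j}) (t := Finset.univ)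
      (f := fun j : Fin N => (1 + (z j : ℝ) ^ 2)) (by simp)
      (fun i _ => by positivity) (fun i _ _ => by nlinarith [sq_nonneg (z i : ℝ)])
    simpa using this
  refine le_trans ?_ h2
  rw [Int.norm_eq_abs]
  nlinarith [sq_abs (z j : ℝ), sq_nonneg (|(z j : ℝ)| - 1), abs_nonneg (z j : ℝ)]

theorem norm_pow_le_ww {N : ℕ} (z : Fin N → ℤ) : 1 ≤ (1 + ‖z‖) ^ (2 * N) * ww z := by
  rw [ww_eq, ← div_eq_mul_inv, le_div_iff₀ (by linarith [one_le_EE z]), one_mul]
  have : (1 + ‖z‖) ^ (2 * N) = ∏ _j : Fin N, (1 + ‖z‖) ^ 2 := by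
    rw [Finset.prod_const, Finset.card_univ, Fintype.card_fin, pow_mul]
  rw [this]
  unfold EE
  apply Finset.prod_le_prod
  · intro i _; positivity
  · intro i _
    have h1 : ‖z i‖ ≤ ‖z‖ := norm_le_pi_norm z i
    rw [Int.norm_eq_abs] at h1
    nlinarith [sq_abs (z i : ℝ), abs_nonneg (z i : ℝ), norm_nonneg z]

/-- One factor. -/
theorem factor (s : ℝ) (hs : 0 < s) (m : ℕ) :
    ∃ A : ℝ, 0 ≤ A ∧ ∀ t : ℝ, 1 ≤ t → ∀ x : ℝ,
      Real.exp (-Real.pi * (x ^ 2 / (t * s))) * (1 + x ^ 2) ^ m ≤ A * t ^ m := by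
  have hpi := Real.pi_pos
  refine ⟨(1 + s / Real.pi) ^ m * (m.factorial * Real.exp 1), by positivity, ?_⟩
  intro t ht x
  have ht0 : 0 < t := by linarith
  set u : ℝ := Real.pi * (x ^ 2 / (t * s)) with hu
  have hu0 : 0 ≤ u := by positivity
  have hx : x ^ 2 = t * ((s / Real.pi) * u) := by
    rw [hu]; field_simp
  have h1 : 1 + x ^ 2 ≤ t * ((1 + s / Real.pi) * (1 + u)) := by
    rw [hx]
    have hsp : 0 < s / Real.pi := by positivity
    have : t * ((1 + s / Real.pi) * (1 + u)) - (1 + t * (s / Real.pi * u))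
        = (t - 1) + t * u + t * (s / Real.pi) := by ring
    have h3 : 0 ≤ t * u := by positivity
    have h4 : 0 ≤ t * (s / Real.pi) := by positivity
    linarith
  have h2 : (1 + x ^ 2) ^ m ≤ (t * ((1 + s / Real.pi) * (1 + u))) ^ m :=
    pow_le_pow_left₀ (by positivity) h1 m
  have h3 : (1 + u) ^ m ≤ m.factorial * Real.exp (1 + u) := by
    have := Real.pow_div_factorial_le_exp (1 + u) (by linarith) m
    rwa [div_le_iff₀' (by positivity)] at this
  have h4 : -Real.pi * (x ^ 2 / (t * s)) = -u := by rw [hu]; ring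
  rw [h4]
  calc Real.exp (-u) * (1 + x ^ 2) ^ m
      ≤ Real.exp (-u) * (t * ((1 + s / Real.pi) * (1 + u))) ^ m := by gcongr
    _ = Real.exp (-u) * (1 + u) ^ m * ((1 + s / Real.pi) ^ m * t ^ m) := by
        rw [mul_pow, mul_pow]; ring
    _ ≤ Real.exp (-u) * (m.factorial * Real.exp (1 + u)) *
          ((1 + s / Real.pi) ^ m * t ^ m) := by gcongr
    _ = (Real.exp (-u) * Real.exp (1 + u)) * (m.factorial * ((1 + s / Real.pi) ^ m * t ^ m)) := by
        ring
    _ = Real.exp 1 * (m.factorial * ((1 + s / Real.pi) ^ m * t ^ m)) := by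
        rw [← Real.exp_add]; congr 2; ring
    _ = _ := by ring

theorem wt_pos {N : ℕ} (s : Fin N → ℝ) (t : ℝ) (z : Fin N → ℤ) : 0 < wt s t z := Real.exp_pos _

theorem wt_prod {N : ℕ} (s : Fin N → ℝ) (t : ℝ) (z : Fin N → ℤ) :
    wt s t z = ∏ j, Real.exp (-Real.pi * ((z j : ℝ) ^ 2 / (t * s j))) := by
  unfold wt
  rw [← Real.exp_sum, Finset.mul_sum]

/-- Polynomial moments of the Gaussian weight. -/
theorem wt_bound {N : ℕ} (s : Fin N → ℝ) (hs : ∀ j, 0 < s j) (k : ℕ) :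
    ∃ (B : ℝ) (p : ℕ), 0 ≤ B ∧ ∀ t : ℝ, 1 ≤ t → ∀ z : Fin N → ℤ,
      wt s t z * (1 + ‖z‖) ^ k ≤ B * t ^ p * ww z := by
  choose A hA0 hA using fun j => factor (s j) (hs j) (k + 1)
  refine ⟨2 ^ k * ∏ j, A j, (k + 1) * N, ?_, ?_⟩
  · have : 0 ≤ ∏ j, A j := Finset.prod_nonneg fun j _ => hA0 j
    positivity
  intro t ht z
  have hE := one_le_EE z
  have hE0 : 0 < EE z := by linarith
  have h1 : (1 + ‖z‖) ^ k ≤ (2 * EE z) ^ k :=
    pow_le_pow_left₀ (by positivity) (by linarith [norm_le_EE z]) k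
  have h2 : wt s t z * (EE z) ^ (k + 1) ≤ (∏ j, A j) * t ^ ((k + 1) * N) := by
    rw [wt_prod, EE, ← Finset.prod_pow, ← Finset.prod_mul_distrib]
    calc ∏ j, (Real.exp (-Real.pi * ((z j : ℝ) ^ 2 / (t * s j))) * (1 + (z j : ℝ) ^ 2) ^ (k + 1))
        ≤ ∏ j, (A j * t ^ (k + 1)) := by
          apply Finset.prod_le_prod
          · intro i _; positivity
          · intro i _; exact hA i t ht (z i)
      _ = _ := by
          rw [Finset.prod_mul_distrib, Finset.prod_const, Finset.card_univ, Fintype.card_fin,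
            ← pow_mul]
  have hw := (wt_pos s t z).le
  calc wt s t z * (1 + ‖z‖) ^ k ≤ wt s t z * (2 * EE z) ^ k := by gcongr
    _ = 2 ^ k * (wt s t z * (EE z) ^ (k + 1)) * (EE z)⁻¹ := by
        rw [mul_pow, pow_succ]; field_simp
    _ ≤ 2 ^ k * ((∏ j, A j) * t ^ ((k + 1) * N)) * (EE z)⁻¹ := by gcongr
    _ = _ := by rw [ww_eq]; ring

theorem mulVec_bound {d N : ℕ} (P : Matrix (Fin d) (Fin N) ℤ) :
    ∃ C : ℝ, 1 ≤ C ∧ ∀ z : Fin N → ℤ, 1 + ‖P.mulVec z‖ ≤ C * (1 + ‖z‖) := by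
  have h0 : 0 ≤ ∑ k, ∑ j, ‖P k j‖ := by positivity
  refine ⟨1 + ∑ k, ∑ j, ‖P k j‖, by linarith, ?_⟩
  intro z
  have h1 : ‖P.mulVec z‖ ≤ (∑ k, ∑ j, ‖P k j‖) * ‖z‖ := by
    rw [pi_norm_le_iff_of_nonneg (by positivity)]
    intro k
    calc ‖(P.mulVec z) k‖ = ‖∑ j, P k j * z j‖ := rfl
      _ ≤ ∑ j, ‖P k j * z j‖ := norm_sum_le _ _
      _ ≤ ∑ j, ‖P k j‖ * ‖z‖ := by
          apply Finset.sum_le_sum
          intro j _
          rw [norm_mul]
          gcongr
          exact norm_le_pi_norm z j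
      _ = (∑ j, ‖P k j‖) * ‖z‖ := by rw [Finset.sum_mul]
      _ ≤ (∑ k, ∑ j, ‖P k j‖) * ‖z‖ := by
          gcongr
          exact Finset.single_le_sum (f := fun k => ∑ j, ‖P k j‖)
            (fun i _ => by positivity) (Finset.mem_univ k)
  nlinarith [norm_nonneg z, norm_nonneg (P.mulVec z)]

theorem summable_wt_pow {N : ℕ} (s : Fin N → ℝ) (hs : ∀ j, 0 < s j) (k : ℕ) (t : ℝ)
    (ht : 1 ≤ t) : Summable fun z : Fin N → ℤ => wt s t z * (1 + ‖z‖) ^ k := by
  obtain ⟨B, p, _, h⟩ := wt_bound s hs k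
  refine Summable.of_nonneg_of_le (fun z => ?_) (fun z => h t ht z) ((summable_ww N).mul_left _)
  have := wt_pos s t z
  positivity

theorem summable_wt {N : ℕ} (s : Fin N → ℝ) (hs : ∀ j, 0 < s j) (t : ℝ)
    (ht : 1 ≤ t) : Summable fun z : Fin N → ℤ => wt s t z := by
  simpa using summable_wt_pow s hs 0 t ht

theorem marg_bound {d N : ℕ} (P : Matrix (Fin d) (Fin N) ℤ) (s : Fin N → ℝ)
    (hs : ∀ j, 0 < s j) (k : ℕ) :
    ∃ (B : ℝ) (p : ℕ), 0 ≤ B ∧ ∀ t : ℝ, 1 ≤ t → ∀ r : Fin d → ℤ,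
      marg P s t r * (1 + ‖r‖) ^ k ≤ B * t ^ p := by
  obtain ⟨B, p, hB, h⟩ := wt_bound s hs k
  obtain ⟨C, hC, hP⟩ := mulVec_bound P
  have hS : 0 ≤ ∑' z : Fin N → ℤ, ww z := tsum_nonneg fun z => (ww_pos z).le
  refine ⟨C ^ k * B * ∑' z : Fin N → ℤ, ww z, p, by positivity, ?_⟩
  intro t ht r
  have ht0 : 0 < t := by linarith
  unfold marg
  rw [← tsum_mul_right]
  have hle : ∀ z : Fin N → ℤ, Set.indicator {z | P.mulVec z = r} (wt s t) z * (1 + ‖r‖) ^ k
      ≤ C ^ k * (B * t ^ p * ww z) := by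
    intro z
    by_cases hz : P.mulVec z = r
    · rw [Set.indicator_of_mem (show z ∈ {z | P.mulVec z = r} from hz)]
      have h1 : (1 + ‖r‖) ^ k ≤ (C * (1 + ‖z‖)) ^ k := by
        rw [← hz]
        exact pow_le_pow_left₀ (by positivity) (hP z) k
      have hw := (wt_pos s t z).le
      calc wt s t z * (1 + ‖r‖) ^ k ≤ wt s t z * (C * (1 + ‖z‖)) ^ k := by gcongr
        _ = C ^ k * (wt s t z * (1 + ‖z‖) ^ k) := by rw [mul_pow]; ring
        _ ≤ C ^ k * (B * t ^ p * ww z) :=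
            mul_le_mul_of_nonneg_left (h t ht z) (by positivity)
    · rw [Set.indicator_of_notMem (show z ∉ {z | P.mulVec z = r} from hz), zero_mul]
      have := ww_pos z
      positivity
  have hnn : ∀ z : Fin N → ℤ,
      0 ≤ Set.indicator {z | P.mulVec z = r} (wt s t) z * (1 + ‖r‖) ^ k := by
    intro z
    have : 0 ≤ Set.indicator {z | P.mulVec z = r} (wt s t) z :=
      Set.indicator_nonneg (fun z _ => (wt_pos s t z).le) z
    positivity
  have hsum : Summable fun z : Fin N → ℤ => C ^ k * (B * t ^ p * ww z) :=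
    ((summable_ww N).mul_left _).mul_left _
  calc ∑' z : Fin N → ℤ, Set.indicator {z | P.mulVec z = r} (wt s t) z * (1 + ‖r‖) ^ k
      ≤ ∑' z : Fin N → ℤ, C ^ k * (B * t ^ p * ww z) :=
        Summable.tsum_le_tsum hle (Summable.of_nonneg_of_le hnn hle hsum) hsum
    _ = _ := by rw [tsum_mul_left, tsum_mul_left]; ring

theorem marg_nonneg {d N : ℕ} (P : Matrix (Fin d) (Fin N) ℤ) (s : Fin N → ℝ) (t : ℝ)
    (r : Fin d → ℤ) : 0 ≤ marg P s t r :=
  tsum_nonneg fun z => Set.indicator_nonneg (fun z _ => (wt_pos s t z).le) z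

/-- Summability against polynomially bounded functions of `P z`. -/
theorem summable_wt_g {d N : ℕ} (P : Matrix (Fin d) (Fin N) ℤ) (s : Fin N → ℝ)
    (hs : ∀ j, 0 < s j) (g : (Fin d → ℤ) → ℝ) (C : ℝ) (D : ℕ)
    (hg : ∀ r, |g r| ≤ C * (1 + ‖r‖) ^ D) (t : ℝ) (ht : 1 ≤ t) :
    Summable fun z : Fin N → ℤ => wt s t z * g (P.mulVec z) := by
  obtain ⟨C', hC', hP⟩ := mulVec_bound P
  have hC : 0 ≤ C := by
    have := (abs_nonneg _).trans (hg 0)
    simpa using this
  refine Summable.of_norm_bounded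
    (((summable_wt_pow s hs D t ht).mul_left (C * C' ^ D))) ?_
  intro z
  have hw := (wt_pos s t z).le
  rw [norm_mul, Real.norm_of_nonneg hw, Real.norm_eq_abs]
  calc wt s t z * |g (P.mulVec z)| ≤ wt s t z * (C * (1 + ‖P.mulVec z‖) ^ D) := by
        gcongr
        exact hg _
    _ ≤ wt s t z * (C * (C' * (1 + ‖z‖)) ^ D) := by
        gcongr
        exact hP z
    _ = C * C' ^ D * (wt s t z * (1 + ‖z‖) ^ D) := by rw [mul_pow]; ring

/-- Grouping by the fibres of `P`. -/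
theorem hasSum_marg {d N : ℕ} (P : Matrix (Fin d) (Fin N) ℤ) (s : Fin N → ℝ)
    (hs : ∀ j, 0 < s j) (g : (Fin d → ℤ) → ℝ) (C : ℝ) (D : ℕ)
    (hg : ∀ r, |g r| ≤ C * (1 + ‖r‖) ^ D) (t : ℝ) (ht : 1 ≤ t) :
    HasSum (fun r => g r * marg P s t r) (∑' z : Fin N → ℤ, wt s t z * g (P.mulVec z)) := by
  have h := (summable_wt_g P s hs g C D hg t ht).hasSum.tsum_fiberwise (P.mulVec)
  have he : (fun r : Fin d → ℤ => g r * marg P s t r)
      = fun r => ∑' (b : ↑(P.mulVec ⁻¹' {r})), wt s t ↑b * g (P.mulVec ↑b) := by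
    funext r
    rw [tsum_subtype (P.mulVec ⁻¹' {r}) (fun b => wt s t b * g (P.mulVec b))]
    unfold marg
    rw [← tsum_mul_left]
    congr 1
    funext z
    by_cases hz : P.mulVec z = r
    · rw [Set.indicator_of_mem (show z ∈ {z | P.mulVec z = r} from hz),
        Set.indicator_of_mem (show z ∈ P.mulVec ⁻¹' {r} from hz), hz, mul_comm]
    · rw [Set.indicator_of_notMem (show z ∉ {z | P.mulVec z = r} from hz),
        Set.indicator_of_notMem (show z ∉ P.mulVec ⁻¹' {r} from hz), mul_zero]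
  rw [he]
  exact h

/-- The difference of two marginals tested against `g` tends to zero. -/
theorem tendsto_diff (hG1 : S_G1) {d N : ℕ} (P P' : Matrix (Fin d) (Fin N) ℤ) (s : Fin N → ℝ)
    (hs : ∀ j, 0 < s j) (hP : Function.Surjective P.mulVec) (hP' : Function.Surjective P'.mulVec)
    (hq : ∀ χ : Fin d → ℝ,
      ∑ j, s j * (∑ k, χ k * (P k j : ℝ)) ^ 2 = ∑ j, s j * (∑ k, χ k * (P' k j : ℝ)) ^ 2)
    (g : (Fin d → ℤ) → ℝ) (C : ℝ) (D : ℕ) (hg : ∀ r, |g r| ≤ C * (1 + ‖r‖) ^ D) :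
    Tendsto (fun t : ℝ => ∑' r, g r * (marg P s t r - marg P' s t r)) atTop (nhds 0) := by
  obtain ⟨C1, c, hc, h1⟩ := hG1 d N P P' s hs hP hP' hq
  have hC1 : 0 ≤ C1 := by
    have := (abs_nonneg _).trans (h1 1 le_rfl 0)
    exact nonneg_of_mul_nonneg_left this (Real.exp_pos _)
  have hC : 0 ≤ C := by
    have := (abs_nonneg _).trans (hg 0)
    simpa using this
  obtain ⟨B, p, hB, h2⟩ := marg_bound P s hs (2 * (D + 2 * d))
  obtain ⟨B', p', hB', h2'⟩ := marg_bound P' s hs (2 * (D + 2 * d))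
  set ε : ℝ → ℝ := fun t => Real.sqrt (C1 * Real.exp (-c * t) * (B * t ^ p + B' * t ^ p'))
    with hε
  have hεt : Tendsto ε atTop (nhds 0) := by
    have e1 : Tendsto (fun t : ℝ => C1 * Real.exp (-c * t) * (B * t ^ p + B' * t ^ p')) atTop
        (nhds 0) := by
      have a1 := (tendsto_rpow_mul_exp_neg_mul_atTop_nhds_zero (p : ℝ) c hc).const_mul (C1 * B)
      have a2 := (tendsto_rpow_mul_exp_neg_mul_atTop_nhds_zero (p' : ℝ) c hc).const_mul (C1 * B')
      have a3 := a1.add a2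
      simp only [mul_zero, add_zero] at a3
      refine a3.congr ?_
      intro t
      rw [Real.rpow_natCast, Real.rpow_natCast]
      ring
    have e2 := (Real.continuous_sqrt.tendsto 0).comp e1
    simpa [hε, Function.comp_def] using e2
  -- pointwise bound
  have hpt : ∀ t : ℝ, 1 ≤ t → ∀ r : Fin d → ℤ,
      |marg P s t r - marg P' s t r| * (1 + ‖r‖) ^ (D + 2 * d) ≤ ε t := by
    intro t ht r
    have ht0 : 0 < t := by linarith
    rw [hε]
    apply Real.le_sqrt_of_sq_le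
    rw [mul_pow, ← pow_mul, mul_comm (D + 2 * d) 2]
    set Δ := |marg P s t r - marg P' s t r| with hΔ
    have hΔ0 : 0 ≤ Δ := abs_nonneg _
    have b1 : Δ ≤ C1 * Real.exp (-c * t) := h1 t ht r
    have b2 : Δ ≤ marg P s t r + marg P' s t r := by
      rw [hΔ, abs_le]
      constructor <;> linarith [marg_nonneg P s t r, marg_nonneg P' s t r]
    have b3 : Δ * (1 + ‖r‖) ^ (2 * (D + 2 * d)) ≤ B * t ^ p + B' * t ^ p' := by
      calc Δ * (1 + ‖r‖) ^ (2 * (D + 2 * d))
          ≤ (marg P s t r + marg P' s t r) * (1 + ‖r‖) ^ (2 * (D + 2 * d)) := by gcongr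
        _ = marg P s t r * (1 + ‖r‖) ^ (2 * (D + 2 * d))
            + marg P' s t r * (1 + ‖r‖) ^ (2 * (D + 2 * d)) := by ring
        _ ≤ _ := add_le_add (h2 t ht r) (h2' t ht r)
    calc Δ ^ 2 * (1 + ‖r‖) ^ (2 * (D + 2 * d))
        = Δ * (Δ * (1 + ‖r‖) ^ (2 * (D + 2 * d))) := by ring
      _ ≤ C1 * Real.exp (-c * t) * (B * t ^ p + B' * t ^ p') := by gcongr
  have hS : 0 ≤ ∑' r : Fin d → ℤ, ww r := tsum_nonneg fun z => (ww_pos z).le
  refine squeeze_zero_norm' (a := fun t => C * ε t * ∑' r : Fin d → ℤ, ww r) ?_ ?_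
  · filter_upwards [eventually_ge_atTop (1 : ℝ)] with t ht
    have hε0 : 0 ≤ ε t := Real.sqrt_nonneg _
    rw [← tsum_mul_left]
    refine tsum_of_norm_bounded ((summable_ww d).mul_left _).hasSum ?_
    intro r
    rw [norm_mul, Real.norm_eq_abs, Real.norm_eq_abs]
    have hw := ww_pos r
    have c1 := norm_pow_le_ww r
    have c2 := hpt t ht r
    set Δ := |marg P s t r - marg P' s t r| with hΔ
    have hΔ0 : 0 ≤ Δ := abs_nonneg _
    calc |g r| * Δ ≤ (C * (1 + ‖r‖) ^ D) * Δ := by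
          gcongr
          exact hg r
      _ = C * (Δ * (1 + ‖r‖) ^ D) * 1 := by ring
      _ ≤ C * (Δ * (1 + ‖r‖) ^ D) * ((1 + ‖r‖) ^ (2 * d) * ww r) := by gcongr
      _ = C * (Δ * (1 + ‖r‖) ^ (D + 2 * d)) * ww r := by rw [pow_add]; ring
      _ ≤ C * ε t * ww r := by gcongr
  · have := (hεt.const_mul C).mul_const (∑' r : Fin d → ℤ, ww r)
    simpa using this

theorem wt_mono {N : ℕ} (s : Fin N → ℝ) (hs : ∀ j, 0 < s j) (t : ℝ) (ht : 1 ≤ t)
    (z : Fin N → ℤ) : wt s 1 z ≤ wt s t z := by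
  unfold wt
  apply Real.exp_le_exp.mpr
  have hpi := Real.pi_pos
  have : ∑ j, (z j : ℝ) ^ 2 / (t * s j) ≤ ∑ j, (z j : ℝ) ^ 2 / (1 * s j) := by
    apply Finset.sum_le_sum
    intro j _
    have := hs j
    gcongr
  nlinarith

theorem partG2 : S_G2 := by
  intro hG1 n d N P s hs hP hq g hg hzero hpos z0
  obtain ⟨C, D, hg⟩ := hg
  rcases Nat.eq_zero_or_pos n with hn | hn
  · subst hn; simp
  let i0 : Fin n := ⟨0, hn⟩
  set G : (Fin N → ℤ) → ℝ := fun z => ∑ i, g i ((P i).mulVec z) with hG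
  -- the sum of `wt * G`
  have hsumG : ∀ t : ℝ, 1 ≤ t → Summable fun z : Fin N → ℤ => wt s t z * G z := by
    intro t ht
    have := summable_sum (s := Finset.univ)
      (f := fun (i : Fin n) (z : Fin N → ℤ) => wt s t z * g i ((P i).mulVec z))
      (fun i _ => summable_wt_g (P i) s hs (g i) C D (hg i) t ht)
    refine this.congr ?_
    intro z
    rw [hG, Finset.mul_sum]
  have hkey : ∀ t : ℝ, 1 ≤ t → ∑' z : Fin N → ℤ, wt s t z * G z
      = ∑ i, ∑' r, g i r * (marg (P i) s t r - marg (P i0) s t r) := by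
    intro t ht
    have e1 : ∀ i, HasSum (fun r => g i r * marg (P i) s t r)
        (∑' z : Fin N → ℤ, wt s t z * g i ((P i).mulVec z)) :=
      fun i => hasSum_marg (P i) s hs (g i) C D (hg i) t ht
    have e2 : ∀ i, HasSum (fun r => g i r * marg (P i0) s t r)
        (∑' z : Fin N → ℤ, wt s t z * g i ((P i0).mulVec z)) :=
      fun i => hasSum_marg (P i0) s hs (g i) C D (hg i) t ht
    have e3 : ∑' z : Fin N → ℤ, wt s t z * G z
        = ∑ i, ∑' z : Fin N → ℤ, wt s t z * g i ((P i).mulVec z) := by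
      rw [← Summable.tsum_finsetSum
        (fun i _ => summable_wt_g (P i) s hs (g i) C D (hg i) t ht)]
      apply tsum_congr
      intro z
      rw [hG, Finset.mul_sum]
    have e4 : ∑ i, ∑' z : Fin N → ℤ, wt s t z * g i ((P i0).mulVec z) = 0 := by
      rw [← Summable.tsum_finsetSum
        (fun i _ => summable_wt_g (P i0) s hs (g i) C D (hg i) t ht)]
      have : ∀ z : Fin N → ℤ, ∑ i, wt s t z * g i ((P i0).mulVec z) = 0 := by
        intro z
        rw [← Finset.mul_sum, hzero, mul_zero]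
      simp [this]
    have e5 : ∀ i, ∑' r, g i r * (marg (P i) s t r - marg (P i0) s t r)
        = (∑' z : Fin N → ℤ, wt s t z * g i ((P i).mulVec z))
          - ∑' z : Fin N → ℤ, wt s t z * g i ((P i0).mulVec z) := by
      intro i
      have := ((e1 i).sub (e2 i)).tsum_eq
      rw [← this]
      apply tsum_congr
      intro r
      ring
    rw [e3, Finset.sum_congr rfl (fun i _ => e5 i), Finset.sum_sub_distrib, e4, sub_zero]
  have hlim : Tendsto (fun t : ℝ => ∑ i, ∑' r, g i r * (marg (P i) s t r - marg (P i0) s t r))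
      atTop (nhds 0) := by
    have := tendsto_finsetSum (Finset.univ : Finset (Fin n))
      (fun i _ => tendsto_diff hG1 (P i) (P i0) s hs (hP i) (hP i0) (hq i i0) (g i) C D (hg i))
    simpa using this
  have hle : wt s 1 z0 * G z0 ≤ 0 := by
    refine ge_of_tendsto hlim ?_
    filter_upwards [eventually_ge_atTop (1 : ℝ)] with t ht
    rw [← hkey t ht]
    calc wt s 1 z0 * G z0 ≤ wt s t z0 * G z0 := by
          have := hpos z0
          have h3 := wt_mono s hs t ht z0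
          exact mul_le_mul_of_nonneg_right h3 this
      _ ≤ ∑' z : Fin N → ℤ, wt s t z * G z :=
          (hsumG t ht).le_tsum z0 (fun z _ => mul_nonneg (wt_pos s t z).le (hpos z))
  have h0 := hpos z0
  have hw := wt_pos s 1 z0
  have : G z0 ≤ 0 := by
    by_contra hcon
    have := mul_pos hw (not_le.mp hcon)
    linarith
  exact le_antisymm this h0

end Pool.Agent.N459.SM
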